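import Pool.Agent.V11120.Stm.Lift
import Pool.Agent.V11120.PalT.Rich

/-!
# Richness of the second and third `S`-preimages of Sturmian words
-/

set_option autoImplicit false

namespace Pool.Agent.Results.MP_3c89f4_co.Preimages

open Pool.Agent.V11120.PalT Pool.Agent.V11120.Stm

/-- The operator `S`: the word of the sums modulo 2 of adjacent letters. -/
def Sop (x : ℕ → Bool) : ℕ → Bool := fun i => xor (x i) (x (i + 1))

/-- The antimorphism `E`. -/
def Ew (w : List Bool) : List Bool := (w.map not).reverse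

/-- The number of `E`-palindromic factors of length `n`. -/
noncomputable def PE (x : ℕ → Bool) (n : ℕ) : ℕ :=
  {w | w ∈ Lang x ∧ w.length = n ∧ Ew w = w}.ncard

/-- Sturmian words. -/
def Sturmian (u : ℕ → Bool) : Prop := ∀ n, C u n = n + 1

/-- `H`-rich words. -/
def HRich (x : ℕ → Bool) : Prop :=
  (∀ w ∈ Lang x, w.reverse ∈ Lang x) ∧ (∀ w ∈ Lang x, Ew w ∈ Lang x) ∧
    ∀ n, 1 ≤ n → (C x (n + 1) : ℤ) - C x n + 4 = P x (n + 1) + P x n + PE x (n + 1) + PE x n

namespace Proof

/-! ### integration of words -/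

/-- the word with first letter `p` and adjacent sums `f` -/
def lift : Bool → List Bool → List Bool
  | p, [] => [p]
  | p, c :: f => p :: lift (xor p c) f

/-- the parity of the number of ones -/
def par : List Bool → Bool
  | [] => false
  | c :: f => xor c (par f)

theorem lift_length (f : List Bool) : ∀ p, (lift p f).length = f.length + 1 := by
  induction f with
  | nil => intro p; rfl
  | cons c f ih => intro p; rw [lift, List.length_cons, ih, List.length_cons]

theorem lift_inj (f : List Bool) : ∀ g p q, lift p f = lift q g → p = q ∧ f = g := by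
  induction f with
  | nil =>
    intro g p q h
    cases g with
    | nil => rw [lift, lift] at h; exact ⟨(List.cons.inj h).1, rfl⟩
    | cons d g =>
      have := congrArg List.length h
      rw [lift_length, lift_length] at this
      simp at this
  | cons c f ih =>
    intro g p q h
    cases g with
    | nil =>
      have := congrArg List.length h
      rw [lift_length, lift_length] at this
      simp at this
    | cons d g =>
      rw [lift, lift] at h
      obtain ⟨h1, h2⟩ := List.cons.inj h
      subst h1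
      obtain ⟨h3, h4⟩ := ih g _ _ h2
      refine ⟨rfl, ?_⟩
      rw [h4]
      congr 1
      revert h3
      cases p <;> cases c <;> cases d <;> decide

theorem par_append (f g : List Bool) : par (f ++ g) = xor (par f) (par g) := by
  induction f with
  | nil => simp [par]
  | cons c f ih => rw [List.cons_append, par, par, ih, Bool.xor_assoc]

theorem par_reverse (f : List Bool) : par f.reverse = par f := by
  induction f with
  | nil => rfl
  | cons c f ih =>
    rw [List.reverse_cons, par_append, ih, par, par, par]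
    cases par f <;> cases c <;> rfl

theorem lift_snoc (f : List Bool) (c : Bool) :
    ∀ q, lift q (f ++ [c]) = lift q f ++ [xor (xor q (par f)) c] := by
  induction f with
  | nil => intro q; simp [lift, par]
  | cons d f ih =>
    intro q
    rw [List.cons_append, lift, ih, lift, List.cons_append, par]
    congr 3
    cases q <;> cases d <;> cases par f <;> rfl

theorem lift_reverse (f : List Bool) :
    ∀ p, (lift p f).reverse = lift (xor p (par f)) f.reverse := by
  induction f with
  | nil => intro p; simp [lift, par]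
  | cons c f ih =>
    intro p
    rw [lift, List.reverse_cons, ih, List.reverse_cons, lift_snoc, par_reverse, par]
    congr 2
    · cases p <;> cases c <;> cases par f <;> rfl
    · cases p <;> cases c <;> cases par f <;> rfl

theorem lift_not (f : List Bool) : ∀ p, (lift p f).map not = lift (!p) f := by
  induction f with
  | nil => intro p; rfl
  | cons c f ih =>
    intro p
    rw [lift, List.map_cons, ih, lift]
    congr 2
    cases p <;> cases c <;> rfl

theorem fac_cons (x : ℕ → Bool) (i n : ℕ) : fac x i (n + 1) = x i :: fac x (i + 1) n := by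
  have := fac_append x i 1 n
  rw [add_comm n 1, ← this]
  simp [fac]

theorem fac_lift (x : ℕ → Bool) (n : ℕ) : ∀ i, fac x i (n + 1) = lift (x i) (fac (Sop x) i n) := by
  induction n with
  | zero => intro i; simp [fac, lift]
  | succ n ih =>
    intro i
    rw [fac_cons, ih, fac_cons (Sop x) i n, lift]
    congr 2
    simp only [Sop]
    cases x i <;> cases x (i + 1) <;> rfl

theorem pal_lift (p : Bool) (f : List Bool) : Pal (lift p f) ↔ Pal f ∧ par f = false := by
  unfold Pal
  rw [lift_reverse]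
  constructor
  · intro h
    obtain ⟨h1, h2⟩ := lift_inj _ _ _ _ h
    refine ⟨h2, ?_⟩
    revert h1
    cases p <;> cases par f <;> decide
  · rintro ⟨h1, h2⟩
    rw [h1, h2, Bool.xor_false]

theorem epal_lift (p : Bool) (f : List Bool) : Ew (lift p f) = lift p f ↔
    Pal f ∧ par f = true := by
  unfold Pal Ew
  rw [lift_not, lift_reverse]
  constructor
  · intro h
    obtain ⟨h1, h2⟩ := lift_inj _ _ _ _ h
    refine ⟨h2, ?_⟩
    revert h1
    cases p <;> cases par f <;> decide
  · rintro ⟨h1, h2⟩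
    rw [h1, h2]
    congr 1
    cases p <;> rfl

/-- even palindromes have parity zero -/
theorem par_even (w : List Bool) (hw : Pal w) (he : w.length % 2 = 0) : par w = false := by
  obtain ⟨k, hk⟩ : ∃ k, w.length = k + k := ⟨w.length / 2, by omega⟩
  have h1 : w.drop k = (w.take k).reverse := by
    have e : w.reverse = w := hw
    conv_lhs => rw [← e]
    rw [List.drop_reverse, hk, Nat.add_sub_cancel]
  rw [← List.take_append_drop k w, par_append, h1, par_reverse, Bool.xor_self]

theorem par_lift_not (f : List Bool) (he : f.length % 2 = 0) :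
    ∀ p, par (lift p f) = xor (par (lift false f)) p := by
  have key : ∀ w : List Bool, par (w.map not) = xor (par w) (decide (w.length % 2 = 1)) := by
    intro w
    induction w with
    | nil => rfl
    | cons c w ih =>
      rw [List.map_cons, par, ih, par, List.length_cons]
      rcases Nat.mod_two_eq_zero_or_one w.length with h | h
      · have h2 : (w.length + 1) % 2 = 1 := by omega
        simp [h, h2]
      · have h2 : (w.length + 1) % 2 = 0 := by omega
        simp [h, h2]
  intro p
  cases p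
  · rw [Bool.xor_false]
  · have := key (lift false f)
    rw [lift_not, lift_length] at this
    rw [Bool.not_false] at this
    rw [this]
    congr 1
    simp
    omega

/-! ### counting lifts -/

/-- palindromic factors of length `n` and parity `c` -/
def Q (x : ℕ → Bool) (n : ℕ) (c : Bool) : Set (List Bool) :=
  {w | w ∈ Lang x ∧ w.length = n ∧ Pal w ∧ par w = c}

theorem Q_finite (x : ℕ → Bool) (n : ℕ) (c : Bool) : (Q x n c).Finite :=
  (finite_len (A := Bool) n).subset (fun _ hw => hw.2.1.le)

theorem P_Q (x : ℕ → Bool) (n : ℕ) : P x n = (Q x n false).ncard + (Q x n true).ncard := by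
  rw [P, ← Set.ncard_union_eq _ (Q_finite _ _ _) (Q_finite _ _ _)]
  · congr 1
    ext w
    constructor
    · rintro ⟨h1, h2, h3⟩
      rcases h : par w
      · exact Or.inl ⟨h1, h2, h3, h⟩
      · exact Or.inr ⟨h1, h2, h3, h⟩
    · rintro (⟨h1, h2, h3, -⟩ | ⟨h1, h2, h3, -⟩)
      · exact ⟨h1, h2, h3⟩
      · exact ⟨h1, h2, h3⟩
  · rw [Set.disjoint_left]
    rintro w ⟨-, -, -, h1⟩ ⟨-, -, -, h2⟩
    rw [h1] at h2
    exact absurd h2 (by decide)

/-- all lifts of factors of `S x` are factors of `x` -/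
def Full (x : ℕ → Bool) : Prop := ∀ f ∈ Lang (Sop x), ∀ p, lift p f ∈ Lang x

theorem lang_lift (x : ℕ → Bool) (hx : Full x) (n : ℕ) (w : List Bool) :
    (w ∈ Lang x ∧ w.length = n + 1) ↔
      ∃ p f, f ∈ Lang (Sop x) ∧ f.length = n ∧ w = lift p f := by
  constructor
  · rintro ⟨⟨i, m, rfl⟩, h⟩
    rw [fac_length] at h
    subst h
    exact ⟨x i, fac (Sop x) i n, mem_lang _ _ _, fac_length _ _ _, fac_lift x n i⟩
  · rintro ⟨p, f, h1, h2, rfl⟩
    exact ⟨hx f h1 p, by rw [lift_length, h2]⟩

/-- the set of all lifts of the words of `F` has twice as many elements -/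
theorem ncard_lift (F : Set (List Bool)) (hF : F.Finite) :
    {w | ∃ p f, f ∈ F ∧ w = lift p f}.ncard = 2 * F.ncard := by
  have e : {w | ∃ p f, f ∈ F ∧ w = lift p f} = (lift false) '' F ∪ (lift true) '' F := by
    ext w
    constructor
    · rintro ⟨p, f, h1, rfl⟩
      cases p
      · exact Or.inl ⟨f, h1, rfl⟩
      · exact Or.inr ⟨f, h1, rfl⟩
    · rintro (⟨f, h1, rfl⟩ | ⟨f, h1, rfl⟩)
      · exact ⟨false, f, h1, rfl⟩
      · exact ⟨true, f, h1, rfl⟩
  have hinj : ∀ p, Function.Injective (lift p) := fun p f g h => (lift_inj f g p p h).2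
  rw [e, Set.ncard_union_eq _ (hF.image _) (hF.image _),
    Set.ncard_image_of_injective _ (hinj false), Set.ncard_image_of_injective _ (hinj true)]
  · ring
  · rw [Set.disjoint_left]
    rintro w ⟨f, -, rfl⟩ ⟨g, -, h⟩
    exact absurd (lift_inj _ _ _ _ h).1 (by decide)

theorem C_lift (x : ℕ → Bool) (hx : Full x) (n : ℕ) : C x (n + 1) = 2 * C (Sop x) n := by
  have h0 : C (Sop x) n = (Ln (Sop x) n).ncard := rfl
  rw [C, h0, ← ncard_lift _ (Ln_finite (Sop x) n)]
  congr 1
  ext w
  rw [Set.mem_ofPred_eq, lang_lift x hx]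
  constructor
  · rintro ⟨p, f, h1, h2, h3⟩
    exact ⟨p, f, ⟨h1, h2⟩, h3⟩
  · rintro ⟨p, f, ⟨h1, h2⟩, h3⟩
    exact ⟨p, f, h1, h2, h3⟩

theorem P_lift (x : ℕ → Bool) (hx : Full x) (n : ℕ) :
    P x (n + 1) = 2 * (Q (Sop x) n false).ncard := by
  rw [P, ← ncard_lift _ (Q_finite _ _ _)]
  congr 1
  ext w
  constructor
  · rintro ⟨h1, h2, h3⟩
    obtain ⟨p, f, g1, g2, rfl⟩ := (lang_lift x hx n w).1 ⟨h1, h2⟩
    rw [pal_lift] at h3
    exact ⟨p, f, ⟨g1, g2, h3.1, h3.2⟩, rfl⟩
  · rintro ⟨p, f, ⟨g1, g2, g3, g4⟩, rfl⟩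
    obtain ⟨h1, h2⟩ := (lang_lift x hx n (lift p f)).2 ⟨p, f, g1, g2, rfl⟩
    exact ⟨h1, h2, (pal_lift p f).2 ⟨g3, g4⟩⟩

theorem PE_lift (x : ℕ → Bool) (hx : Full x) (n : ℕ) :
    PE x (n + 1) = 2 * (Q (Sop x) n true).ncard := by
  rw [PE, ← ncard_lift _ (Q_finite _ _ _)]
  congr 1
  ext w
  constructor
  · rintro ⟨h1, h2, h3⟩
    obtain ⟨p, f, g1, g2, rfl⟩ := (lang_lift x hx n w).1 ⟨h1, h2⟩
    rw [epal_lift] at h3
    exact ⟨p, f, ⟨g1, g2, h3.1, h3.2⟩, rfl⟩
  · rintro ⟨p, f, ⟨g1, g2, g3, g4⟩, rfl⟩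
    obtain ⟨h1, h2⟩ := (lang_lift x hx n (lift p f)).2 ⟨p, f, g1, g2, rfl⟩
    exact ⟨h1, h2, (epal_lift p f).2 ⟨g3, g4⟩⟩

theorem Q_odd (x : ℕ → Bool) (hx : Full x) (n : ℕ) (hn : n % 2 = 0) :
    (Q x (n + 1) false).ncard = (Q (Sop x) n false).ncard := by
  have e : Q x (n + 1) false = (fun f => lift (par (lift false f)) f) '' (Q (Sop x) n false) := by
    ext w
    constructor
    · rintro ⟨h1, h2, h3, h4⟩
      obtain ⟨p, f, g1, g2, rfl⟩ := (lang_lift x hx n w).1 ⟨h1, h2⟩
      rw [pal_lift] at h3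
      refine ⟨f, ⟨g1, g2, h3.1, h3.2⟩, ?_⟩
      show lift (par (lift false f)) f = lift p f
      rw [par_lift_not f (by rw [g2]; exact hn)] at h4
      congr 1
      revert h4
      cases par (lift false f) <;> cases p <;> decide
    · rintro ⟨f, ⟨g1, g2, g3, g4⟩, rfl⟩
      obtain ⟨h1, h2⟩ := (lang_lift x hx n (lift (par (lift false f)) f)).2 ⟨_, f, g1, g2, rfl⟩
      refine ⟨h1, h2, (pal_lift _ f).2 ⟨g3, g4⟩, ?_⟩
      show par (lift (par (lift false f)) f) = false
      rw [par_lift_not f (by rw [g2]; exact hn), Bool.xor_self]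
  rw [e, Set.ncard_image_of_injective]
  intro f g h
  exact (lift_inj _ _ _ _ h).2

theorem Q_even (x : ℕ → Bool) (hx : Full x) (n : ℕ) (hn : n % 2 = 1) :
    (Q x (n + 1) false).ncard = 2 * (Q (Sop x) n false).ncard := by
  rw [← P_lift x hx, P_Q]
  have : Q x (n + 1) true = ∅ := by
    ext w
    constructor
    · rintro ⟨h1, h2, h3, h4⟩
      rw [par_even w h3 (by rw [h2]; omega)] at h4
      exact absurd h4 (by decide)
    · exact fun h => absurd h (Set.notMem_empty w)
  rw [this, Set.ncard_empty, add_zero]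

theorem closedRev_lift (x : ℕ → Bool) (hx : Full x) (h : ClosedRev (Sop x)) : ClosedRev x := by
  intro w hw
  rcases Nat.eq_zero_or_pos w.length with h0 | h0
  · rw [List.length_eq_zero_iff.1 h0] at hw ⊢
    exact hw
  · obtain ⟨p, f, g1, g2, rfl⟩ := (lang_lift x hx (w.length - 1) w).1 ⟨hw, by omega⟩
    rw [lift_reverse]
    exact hx _ (h f g1) _

theorem closedE_lift (x : ℕ → Bool) (hx : Full x) (h : ClosedRev (Sop x)) :
    ∀ w ∈ Lang x, Ew w ∈ Lang x := by
  intro w hw
  rcases Nat.eq_zero_or_pos w.length with h0 | h0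
  · rw [List.length_eq_zero_iff.1 h0] at hw ⊢
    exact hw
  · obtain ⟨p, f, g1, g2, rfl⟩ := (lang_lift x hx (w.length - 1) w).1 ⟨hw, by omega⟩
    rw [Ew, lift_not, lift_reverse]
    exact hx _ (h f g1) _

theorem C_zero (x : ℕ → Bool) : C x 0 = 1 := by
  have : {w | w ∈ Lang x ∧ w.length = 0} = {[]} := by
    ext w
    constructor
    · rintro ⟨-, h⟩
      exact List.length_eq_zero_iff.1 h
    · rintro rfl
      exact ⟨⟨0, 0, rfl⟩, rfl⟩
  rw [C, this, Set.ncard_singleton]

theorem Q_zero (x : ℕ → Bool) : (Q x 0 false).ncard = 1 := by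
  have : Q x 0 false = {[]} := by
    ext w
    constructor
    · rintro ⟨-, h, -⟩
      exact List.length_eq_zero_iff.1 h
    · rintro rfl
      exact ⟨⟨0, 0, rfl⟩, rfl, rfl, rfl⟩
  rw [this, Set.ncard_singleton]

theorem P_zero (x : ℕ → Bool) : P x 0 = 1 := by
  have : {w | w ∈ Lang x ∧ w.length = 0 ∧ Pal w} = {[]} := by
    ext w
    constructor
    · rintro ⟨-, h, -⟩
      exact List.length_eq_zero_iff.1 h
    · rintro rfl
      exact ⟨⟨0, 0, rfl⟩, rfl, rfl⟩
  rw [P, this, Set.ncard_singleton]

/-- `x` is `H`-rich if `T` vanishes for `S x` -/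
theorem hrich_of (x : ℕ → Bool) (hx : Full x) (h : ClosedRev (Sop x))
    (hT : ∀ n, T (Sop x) n = 0) : HRich x := by
  refine ⟨closedRev_lift x hx h, closedE_lift x hx h, ?_⟩
  intro n hn
  obtain ⟨m, rfl⟩ : ∃ m, n = m + 1 := ⟨n - 1, by omega⟩
  have h1 := hT m
  rw [T] at h1
  have h2 := P_Q (Sop x) (m + 1)
  have h3 := P_Q (Sop x) m
  rw [C_lift x hx, C_lift x hx, P_lift x hx, P_lift x hx, PE_lift x hx, PE_lift x hx]
  omega

/-! ### Sturmian palindromes -/

theorem lang_sub {x : ℕ → Bool} {v w : List Bool} (h : v <:+: w) (hw : w ∈ Lang x) :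
    v ∈ Lang x := by
  obtain ⟨i, n, rfl⟩ := hw
  obtain ⟨s, t, hst⟩ := h
  have hl := congrArg List.length hst
  rw [List.length_append, List.length_append, fac_length] at hl
  refine ⟨i + s.length, v.length, ?_⟩
  have e1 := fac_append x i s.length (v.length + t.length)
  have e2 := fac_append x (i + s.length) v.length t.length
  rw [← e2, show s.length + (v.length + t.length) = n by omega, ← hst, List.append_assoc] at e1
  have e3 := List.append_inj e1 (fac_length _ _ _)
  exact (List.append_inj e3.2 (fac_length _ _ _)).1.symm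

theorem ext_right {x : ℕ → Bool} {w : List Bool} (hw : w ∈ Lang x) : ∃ c, w ++ [c] ∈ Lang x := by
  obtain ⟨i, n, rfl⟩ := hw
  exact ⟨x (i + n), i, n + 1, (fac_succ x i n).symm⟩

section sturm

variable {u : ℕ → Bool}

theorem rev_of_st (hu : St u) : ClosedRev u := by
  rintro w ⟨i, n, rfl⟩
  obtain ⟨j, hj⟩ := rev n u hu i
  exact ⟨j, n, (fac_rev_eq_iff u i j n).2 hj⟩

theorem ext_left (hu : St u) {w : List Bool} (hw : w ∈ Lang u) : ∃ c, c :: w ∈ Lang u := by
  obtain ⟨c, hc⟩ := ext_right (rev_of_st hu w hw)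
  refine ⟨c, ?_⟩
  have := rev_of_st hu _ hc
  rwa [List.reverse_append, List.reverse_reverse] at this

/-- right special words -/
def RS (u : ℕ → Bool) (w : List Bool) : Prop := ∀ c, w ++ [c] ∈ Lang u

theorem RS_uniq (hu : St u) {v w : List Bool} (hl : v.length = w.length) (hv : RS u v)
    (hw : RS u w) : v = w := by
  have key : ∀ w, RS u w → ∃ i j, w = fac u i w.length ∧ Same u i j w.length ∧
      u (i + w.length) ≠ u (j + w.length) := by
    intro w hw
    obtain ⟨i, hi1, hi2⟩ := (ext_iff u w.length w rfl false).1 (hw false)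
    obtain ⟨j, hj1, hj2⟩ := (ext_iff u w.length w rfl true).1 (hw true)
    refine ⟨i, j, hi1, ?_, ?_⟩
    · rw [← fac_eq_iff, ← hi1]; exact hj1
    · rw [hi2, hj2]; decide
  obtain ⟨i, j, h1, h2, h3⟩ := key v hv
  obtain ⟨i', j', h4, h5, h6⟩ := key w hw
  rw [← hl] at h4 h5 h6
  have := hu.uniq _ _ _ _ _ h2 h3 h5 h6
  rw [h1, h4, fac_eq_iff]
  exact this

theorem RS_ex (hu : St u) (n : ℕ) : ∃ w, w.length = n ∧ RS u w := by
  obtain ⟨i, j, h1, h2⟩ := hu.ex n
  refine ⟨fac u i n, fac_length _ _ _, ?_⟩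
  intro c
  rw [ext_iff u n _ (fac_length _ _ _)]
  by_cases hc : u (i + n) = c
  · exact ⟨i, rfl, hc⟩
  · refine ⟨j, (fac_eq_iff u i j n).2 h1, ?_⟩
    revert hc h2
    cases u (i + n) <;> cases u (j + n) <;> cases c <;> decide

theorem RS_tail {z : Bool} {w : List Bool} (h : RS u (z :: w)) : RS u w := by
  intro c
  exact lang_sub ⟨[z], [], by simp⟩ (h c)

theorem two (z c : Bool) (h : c ≠ z) : c = !z := by
  revert h; cases z <;> cases c <;> decide

/-- a palindrome extends to a palindrome in exactly one way -/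
theorem ext_pal (hu : St u) {w : List Bool} (hw : w ∈ Lang u) (hp : Pal w) :
    ∃ c, c :: (w ++ [c]) ∈ Lang u ∧ ∀ d, d :: (w ++ [d]) ∈ Lang u → d = c := by
  have hrev := rev_of_st hu
  have hp' : w.reverse = w := hp
  by_cases hRS : RS u w
  · obtain ⟨v, hv1, hv2⟩ := RS_ex hu (w.length + 1)
    cases v with
    | nil => simp at hv1
    | cons z v =>
      have hvw : v = w := RS_uniq hu (by simpa using hv1) (RS_tail hv2) hRS
      subst hvw
      refine ⟨z, hv2 z, ?_⟩
      intro d hd
      by_contra hne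
      have h1 := two z d hne
      -- then `d :: v` is right special too
      have h2 : d :: v ++ [z] ∈ Lang u := by
        have := hrev _ (hv2 d)
        rw [List.cons_append, List.reverse_cons, List.reverse_append, hp'] at this
        exact this
      have h3 : RS u (d :: v) := by
        intro c
        by_cases hc : c = z
        · rw [hc]; exact h2
        · rw [two z c hc, ← h1]; exact hd
      have := RS_uniq hu (by simp) h3 hv2
      exact hne (List.cons.inj this).1
  · -- a unique right extension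
    obtain ⟨c, hc⟩ := ext_right hw
    have huq : ∀ d, w ++ [d] ∈ Lang u → d = c := by
      intro d hd
      by_contra hne
      apply hRS
      intro e
      by_cases he : e = c
      · rw [he]; exact hc
      · rw [two c e he, ← two c d hne]; exact hd
    have huq' : ∀ d, d :: w ∈ Lang u → d = c := by
      intro d hd
      have := hrev _ hd
      rw [List.reverse_cons, hp'] at this
      exact huq d this
    refine ⟨c, ?_, ?_⟩
    · obtain ⟨d, hd⟩ := ext_left hu hw
      have h1 := huq' d hd
      rw [h1] at hd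
      obtain ⟨e, he⟩ := ext_right hd
      have h2 := huq e (lang_sub ⟨[c], [], by simp⟩ he)
      rw [h2] at he
      exact he
    · intro d hd
      exact huq d (lang_sub ⟨[d], [], by simp⟩ hd)

theorem Q_step (hu : St u) (n : ℕ) (c : Bool) :
    (Q u (n + 2) c).ncard = (Q u n c).ncard := by
  have hex : ∀ w, ∃ e : Bool, w ∈ Lang u → Pal w → (e :: (w ++ [e]) ∈ Lang u ∧
      ∀ d, d :: (w ++ [d]) ∈ Lang u → d = e) := by
    intro w
    by_cases hw : w ∈ Lang u ∧ Pal w
    · obtain ⟨e, he⟩ := ext_pal hu hw.1 hw.2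
      exact ⟨e, fun _ _ => he⟩
    · exact ⟨false, fun h1 h2 => absurd ⟨h1, h2⟩ hw⟩
  choose g hg using hex
  have e : Q u (n + 2) c = (fun w => g w :: (w ++ [g w])) '' (Q u n c) := by
    ext w
    constructor
    · rintro ⟨h1, h2, h3, h4⟩
      cases w with
      | nil => simp at h2
      | cons d w =>
        rcases List.eq_nil_or_concat w with rfl | ⟨v, e, rfl⟩
        · simp at h2
        · rw [List.concat_eq_append] at *
          have h3' : (d :: (v ++ [e])).reverse = d :: (v ++ [e]) := h3
          rw [List.reverse_cons, List.reverse_append, List.reverse_singleton,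
            List.singleton_append, List.cons_append] at h3'
          obtain ⟨h5, h6⟩ := List.cons.inj h3'
          have h7 := (List.append_inj' h6 rfl).1
          subst h5
          have hv1 : v ∈ Lang u := lang_sub ⟨[e], [e], by simp⟩ h1
          refine ⟨v, ⟨hv1, ?_, h7, ?_⟩, ?_⟩
          · simp at h2; exact h2
          · rw [par, par_append, par, par] at h4
            revert h4
            cases e <;> cases par v <;> simp
          · show g v :: (v ++ [g v]) = e :: (v ++ [e])
            rw [(hg v hv1 h7).2 e h1]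
    · rintro ⟨v, ⟨h1, h2, h3, h4⟩, rfl⟩
      refine ⟨(hg v h1 h3).1, by simp [h2], ?_, ?_⟩
      · show (g v :: (v ++ [g v])).reverse = g v :: (v ++ [g v])
        have : v.reverse = v := h3
        simp [this]
      · show par (g v :: (v ++ [g v])) = c
        rw [par, par_append, par, par, h4]
        cases g v <;> cases c <;> rfl
  rw [e, Set.ncard_image_of_injective]
  intro v w h
  have h1 := (List.cons.inj h).2
  exact (List.append_inj' h1 rfl).1

theorem Q_one (hu : St u) (n : ℕ) : (Q u n false).ncard = 1 := by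
  induction n using Nat.strong_induction_on with
  | _ n ih =>
  match n with
  | 0 => exact Q_zero u
  | 1 =>
    have : Q u 1 false = {[false]} := by
      ext w
      constructor
      · rintro ⟨-, h, -, h2⟩
        cases w with
        | nil => simp at h
        | cons c w =>
          have hw : w = [] := by simpa using h
          subst hw
          rw [par, par, Bool.xor_false] at h2
          rw [h2]; rfl
      · rintro rfl
        obtain ⟨w, hw1, hw2⟩ := RS_ex hu 0
        rw [List.length_eq_zero_iff.1 hw1] at hw2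
        exact ⟨hw2 false, rfl, rfl, rfl⟩
    rw [this, Set.ncard_singleton]
  | n + 2 => rw [Q_step hu, ih n (by omega)]

end sturm

/-! ### all lifts occur -/

theorem same_up (y : ℕ → Bool) (i j n : ℕ) (h : Same (Sop y) i j n) (h0 : y i = y j) :
    Same y i j (n + 1) := by
  rw [← fac_eq_iff, fac_lift, fac_lift, h0, (fac_eq_iff _ _ _ _).2 h]

theorem full_of (y : ℕ → Bool)
    (h : ∀ i n p, ∃ j, Same (Sop y) i j n ∧ y j = p) : Full y := by
  rintro f ⟨i, n, rfl⟩ p
  obtain ⟨j, h1, h2⟩ := h i n p
  refine ⟨j, n + 1, ?_⟩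
  rw [fac_lift, h2, (fac_eq_iff _ _ _ _).2 h1]

/-- the driving permutations for one, two and three preimages -/
def R1 (c : Bool) : Equiv.Perm Bool where
  toFun w := xor w c
  invFun w := xor w c
  left_inv w := by cases w <;> cases c <;> rfl
  right_inv w := by cases w <;> cases c <;> rfl

def R2 (c : Bool) : Equiv.Perm (Bool × Bool) where
  toFun w := (xor w.1 w.2, xor w.2 c)
  invFun w := (xor w.1 (xor w.2 c), xor w.2 c)
  left_inv w := by revert w; cases c <;> decide
  right_inv w := by revert w; cases c <;> decide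

def R3 (c : Bool) : Equiv.Perm (Bool × Bool × Bool) where
  toFun w := (xor w.1 w.2.1, xor w.2.1 w.2.2, xor w.2.2 c)
  invFun w := (xor w.1 (xor w.2.1 (xor w.2.2 c)), xor w.2.1 (xor w.2.2 c), xor w.2.2 c)
  left_inv w := by revert w; cases c <;> decide
  right_inv w := by revert w; cases c <;> decide

theorem tr_of {Ω : Type} (R : Bool → Equiv.Perm Ω)
    (h : ∀ w w' : Ω, ∃ a b c : Bool, R a (R b (R c w)) = w' ∨ R b (R c w) = w' ∨ R c w = w') :
    Tr R := by
  intro V hV hc
  obtain ⟨w, hw⟩ := hV
  ext w'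
  constructor
  · intro _; exact Set.mem_univ _
  · intro _
    obtain ⟨a, b, c, h1 | h1 | h1⟩ := h w w'
    · rw [← h1]; exact hc a _ (hc b _ (hc c _ hw))
    · rw [← h1]; exact hc b _ (hc c _ hw)
    · rw [← h1]; exact hc c _ hw

theorem tr1 : Tr R1 := tr_of R1 (by decide)
theorem tr2 : Tr R2 := tr_of R2 (by decide)
theorem tr3 : Tr R3 := tr_of R3 (by decide)

theorem full1 (v : ℕ → Bool) (hu : St (Sop v)) : Full v := by
  apply full_of
  intro i n p
  have hs : ∀ j, stt R1 (Sop v) (v 0) j = v j := by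
    intro j
    induction j with
    | zero => rfl
    | succ j ih =>
      rw [stt, ih]
      show xor (v j) (xor (v j) (v (j + 1))) = v (j + 1)
      cases v j <;> cases v (j + 1) <;> rfl
  obtain ⟨j, -, h1, h2⟩ := full n ⟨Sop v, R1, v 0, hu, tr1⟩ i 0 p
  exact ⟨j, h1, by rw [← hs]; exact h2⟩

theorem full2 (x : ℕ → Bool) (hu : St (Sop (Sop x))) : Full x := by
  apply full_of
  intro i n p
  have hs : ∀ j, stt R2 (Sop (Sop x)) (x 0, Sop x 0) j = (x j, Sop x j) := by
    intro j
    induction j with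
    | zero => rfl
    | succ j ih =>
      rw [stt, ih]
      show (xor (x j) (Sop x j), xor (Sop x j) (Sop (Sop x) j)) = _
      simp only [Sop]
      cases x j <;> cases x (j + 1) <;> cases x (j + 1 + 1) <;> rfl
  obtain ⟨j, -, h1, h2⟩ := full n ⟨Sop (Sop x), R2, (x 0, Sop x 0), hu, tr2⟩ i 0 (p, Sop x i)
  have h3 : (x j, Sop x j) = (p, Sop x i) := by rw [← hs]; exact h2
  obtain ⟨h4, h5⟩ := Prod.mk.inj h3
  have h6 := same_up (Sop x) i j n h1 h5.symm
  exact ⟨j, fun t ht => h6 t (by omega), h4⟩

theorem full3 (z : ℕ → Bool) (hu : St (Sop (Sop (Sop z)))) : Full z := by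
  apply full_of
  intro i n p
  have hs : ∀ j, stt R3 (Sop (Sop (Sop z))) (z 0, Sop z 0, Sop (Sop z) 0) j =
      (z j, Sop z j, Sop (Sop z) j) := by
    intro j
    induction j with
    | zero => rfl
    | succ j ih =>
      rw [stt, ih]
      show (xor (z j) (Sop z j), xor (Sop z j) (Sop (Sop z) j),
        xor (Sop (Sop z) j) (Sop (Sop (Sop z)) j)) = _
      simp only [Sop]
      cases z j <;> cases z (j + 1) <;> cases z (j + 1 + 1) <;> cases z (j + 1 + 1 + 1) <;> rfl
  obtain ⟨j, -, h1, h2⟩ := full n ⟨Sop (Sop (Sop z)), R3, (z 0, Sop z 0, Sop (Sop z) 0), hu, tr3⟩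
    i 0 (p, Sop z i, Sop (Sop z) i)
  have h3 : (z j, Sop z j, Sop (Sop z) j) = (p, Sop z i, Sop (Sop z) i) := by
    rw [← hs]; exact h2
  obtain ⟨h4, h5⟩ := Prod.mk.inj h3
  obtain ⟨h5, h6⟩ := Prod.mk.inj h5
  have h7 := same_up (Sop (Sop z)) i j n h1 h6.symm
  have h8 := same_up (Sop z) i j (n + 1) h7 h5.symm
  exact ⟨j, fun t ht => h8 t (by omega), h4⟩

/-! ### the values of `T` -/

section values

theorem T_v (v : ℕ → Bool) (hC : Sturmian (Sop v)) (n : ℕ) : T v n = 0 := by
  have hu := st_of_C _ hC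
  have hf := full1 v hu
  have hQ : ∀ n, P v (n + 1) = 2 := by
    intro n
    rw [P_lift v hf, Q_one hu]
  cases n with
  | zero =>
    rw [T, hQ, C_lift v hf, hC, C_zero, P_zero]
    norm_num
  | succ n =>
    rw [T, hQ, hQ, C_lift v hf, C_lift v hf, hC, hC]
    push_cast
    ring

theorem P_x (x : ℕ → Bool) (hC : Sturmian (Sop (Sop x))) (n : ℕ) :
    P x (n + 1) = if n % 2 = 0 ∧ n ≠ 0 then 4 else 2 := by
  have hu := st_of_C _ hC
  have hf := full2 x hu
  have hf' := full1 (Sop x) hu
  rw [P_lift x hf]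
  cases n with
  | zero => rw [Q_zero]; rfl
  | succ m =>
    rcases Nat.mod_two_eq_zero_or_one m with h | h
    · rw [Q_odd _ hf' m h, Q_one hu, if_neg (by omega)]
    · rw [Q_even _ hf' m h, Q_one hu, if_pos (by omega)]

theorem T_x (x : ℕ → Bool) (hC : Sturmian (Sop (Sop x))) (n : ℕ) : T x n = 0 := by
  have hu := st_of_C _ hC
  have hf := full2 x hu
  have hf' := full1 (Sop x) hu
  match n with
  | 0 =>
    rw [T, P_x x hC, C_lift x hf, C_zero, C_zero, P_zero]
    norm_num
  | 1 =>
    rw [T, P_x x hC, P_x x hC, C_lift x hf, C_lift x hf, C_lift _ hf', C_zero, C_zero]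
    norm_num
  | n + 2 =>
    rw [T, show n + 2 + 1 = (n + 2) + 1 from rfl, P_x x hC (n + 2),
      show P x (n + 2) = P x (n + 1 + 1) from rfl, P_x x hC (n + 1), C_lift x hf,
      show C x (n + 2) = C x (n + 1 + 1) from rfl, C_lift x hf,
      show C (Sop x) (n + 2) = C (Sop x) (n + 1 + 1) from rfl, C_lift _ hf', C_lift _ hf', hC, hC]
    rcases Nat.mod_two_eq_zero_or_one n with h | h
    · rw [if_pos (by omega), if_neg (by omega)]
      push_cast; ring
    · rw [if_neg (by omega), if_pos (by omega)]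
      push_cast; ring

theorem T_z (z : ℕ → Bool) (hC : Sturmian (Sop (Sop (Sop z)))) : T z 4 = 2 := by
  have hu := st_of_C _ hC
  have hf := full3 z hu
  have hf' := full2 (Sop z) hu
  have hf'' := full1 (Sop (Sop z)) hu
  have h5 : P z 5 = 4 := by
    rw [show (5 : ℕ) = 4 + 1 from rfl, P_lift z hf, show (4 : ℕ) = 3 + 1 from rfl,
      Q_even _ hf' 3 (by norm_num), show (3 : ℕ) = 2 + 1 from rfl,
      Q_odd _ hf'' 2 (by norm_num), Q_one hu]
  have h4 : P z 4 = 4 := by
    rw [show (4 : ℕ) = 3 + 1 from rfl, P_lift z hf, show (3 : ℕ) = 2 + 1 from rfl,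
      Q_odd _ hf' 2 (by norm_num), show (2 : ℕ) = 1 + 1 from rfl,
      Q_even _ hf'' 1 (by norm_num), Q_one hu]
  have c5 : C z 5 = 24 := by
    rw [show (5 : ℕ) = 4 + 1 from rfl, C_lift z hf, show (4 : ℕ) = 3 + 1 from rfl,
      C_lift _ hf', show (3 : ℕ) = 2 + 1 from rfl, C_lift _ hf'', hC]
  have c4 : C z 4 = 16 := by
    rw [show (4 : ℕ) = 3 + 1 from rfl, C_lift z hf, show (3 : ℕ) = 2 + 1 from rfl,
      C_lift _ hf', show (2 : ℕ) = 1 + 1 from rfl, C_lift _ hf'', hC]
  rw [T, show 4 + 1 = 5 from rfl, c5, c4, h5, h4]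
  norm_num

end values

end Proof

/-- For every Sturmian word `u`, every `S²`-preimage of `u` is both `H`-rich and `R`-rich, and
every `S³`-preimage of `u` is `H`-rich but not `R`-rich. -/
theorem result (u : ℕ → Bool) (hu : Sturmian u) :
    (∀ x, Sop (Sop x) = u → HRich x ∧ RRich x) ∧
      ∀ z, Sop (Sop (Sop z)) = u → HRich z ∧ ¬ RRich z := by
  constructor
  · rintro x rfl
    have hst := st_of_C _ hu
    have hf := Proof.full2 x hst
    have hf' := Proof.full1 (Sop x) hst
    have r1 := Proof.closedRev_lift (Sop x) hf' (Proof.rev_of_st hst)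
    have r2 := Proof.closedRev_lift x hf r1
    exact ⟨Proof.hrich_of x hf r1 (Proof.T_v (Sop x) hu), rich_of_T x r2 (Proof.T_x x hu)⟩
  · rintro z rfl
    have hst := st_of_C _ hu
    have hf := Proof.full3 z hst
    have hf' := Proof.full2 (Sop z) hst
    have hf'' := Proof.full1 (Sop (Sop z)) hst
    have r1 := Proof.closedRev_lift _ hf'' (Proof.rev_of_st hst)
    have r2 := Proof.closedRev_lift _ hf' r1
    have r3 := Proof.closedRev_lift z hf r2
    refine ⟨Proof.hrich_of z hf r2 (Proof.T_x (Sop z) hu), ?_⟩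
    intro h
    have h1 := T_of_rich z r3 h 4 (by norm_num)
    rw [Proof.T_z z hu] at h1
    exact absurd h1 (by norm_num)

end Pool.Agent.Results.MP_3c89f4_co.Preimages
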